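import Mathlib

open Set Metric MeasureTheory Topology

namespace Pool.Agent.Lib.Topology38

section
variable {E : Type*} [NormedAddCommGroup E] [InnerProductSpace ℝ E] [FiniteDimensional ℝ E]

/-- A map that is Lipschitz on the closed unit ball and vanishes on the unit sphere extends by zero
to a Lipschitz map with the same constant. -/
lemma lipschitz_ext_zero {h : E → E} {L : NNReal} (hL : LipschitzOnWith L h (closedBall 0 1))
    (h0 : ∀ x, ‖x‖ = 1 → h x = 0) :
    LipschitzWith L (fun x => if ‖x‖ ≤ 1 then h x else 0) := by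
  have key : ∀ x y : E, ‖x‖ ≤ 1 → 1 < ‖y‖ → ‖h x‖ ≤ L * dist x y := by
    intro x y hx hy
    have hc : ContinuousOn (fun s : ℝ => ‖AffineMap.lineMap x y s‖) (Icc 0 1) := by
      apply Continuous.continuousOn
      fun_prop
    have := intermediate_value_Icc (zero_le_one) hc
    have h1 : (1 : ℝ) ∈ Icc (‖(AffineMap.lineMap x y (0:ℝ) : E)‖) (‖(AffineMap.lineMap x y (1:ℝ) : E)‖) := by
      simp [hx, hy.le]
    obtain ⟨s, hs, hs1⟩ := this h1
    simp only at hs1
    set z : E := AffineMap.lineMap x y s with hz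
    have hzB : z ∈ closedBall (0:E) 1 := by simp [hs1]
    have hxB : x ∈ closedBall (0:E) 1 := by simpa using hx
    have h2 := hL.dist_le_mul x hxB z hzB
    rw [h0 z hs1, dist_zero_right] at h2
    refine h2.trans ?_
    gcongr
    rw [hz, dist_comm, dist_lineMap_left]
    have : ‖s‖ ≤ 1 := by
      rw [Real.norm_eq_abs, abs_of_nonneg hs.1]; exact hs.2
    calc ‖s‖ * dist x y ≤ 1 * dist x y := by gcongr
      _ = dist x y := one_mul _
  apply LipschitzWith.of_dist_le_mul
  intro x y
  by_cases hx : ‖x‖ ≤ 1 <;> by_cases hy : ‖y‖ ≤ 1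
  · simp only [hx, hy, if_true]
    exact hL.dist_le_mul x (by simpa using hx) y (by simpa using hy)
  · simp only [hx, hy, if_true, if_false, dist_zero_right]
    exact key x y hx (not_le.mp hy)
  · simp only [hx, hy, if_true, if_false, dist_zero_left]
    rw [dist_comm]
    exact key y x hy (not_le.mp hx)
  · simp only [hx, hy, if_false, dist_self]
    positivity

lemma det_poly (A : E →L[ℝ] E) : ∃ p : Polynomial ℝ, p.natDegree ≤ Module.finrank ℝ E ∧
    ∀ t : ℝ, ContinuousLinearMap.det (ContinuousLinearMap.id ℝ E + t • A) = p.eval t := by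
  classical
  let b := Module.finBasis ℝ E
  let M := LinearMap.toMatrix b b (A : E →ₗ[ℝ] E)
  refine ⟨Matrix.det ((Polynomial.X : Polynomial ℝ) • M.map Polynomial.C
    + (1 : Matrix _ _ ℝ).map Polynomial.C), ?_, ?_⟩
  · have := Polynomial.natDegree_det_X_add_C_le M 1
    simpa using this
  · intro t
    have h1 : ContinuousLinearMap.det (ContinuousLinearMap.id ℝ E + t • A) =
        Matrix.det (1 + t • M) := by
      rw [ContinuousLinearMap.det, ← LinearMap.det_toMatrix b]
      congr 1
      simp [M, map_add, LinearMap.toMatrix_id]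
    rw [h1]
    rw [← Polynomial.coe_evalRingHom, RingHom.map_det]
    congr 1
    ext i j
    simp [Matrix.map_apply, Matrix.one_apply]
    split_ifs <;> simp <;> ring

/-- No `C^1` retraction of the closed unit ball onto the unit sphere (Milnor-Rogers). -/
theorem no_retraction {r : E → E} {O : Set E} (hO : IsOpen O) (hBO : closedBall 0 1 ⊆ O)
    (hr : ContDiffOn ℝ 1 r O) (hr1 : ∀ x ∈ O, ‖r x‖ = 1) (hrS : ∀ x, ‖x‖ = 1 → r x = x) :
    False := by
  rcases subsingleton_or_nontrivial E with hE | hE
  · have h0 := hr1 0 (hBO (by simp))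
    rw [Subsingleton.elim (r 0) 0, norm_zero] at h0
    exact zero_ne_one h0
  borelize E
  set μ : Measure E := MeasureTheory.Measure.addHaar with hμ
  set B : Set E := closedBall 0 1 with hB
  have hBc : IsCompact B := isCompact_closedBall 0 1
  have hrd : ∀ x ∈ O, HasFDerivAt r (fderiv ℝ r x) x := fun x hx =>
    ((hr.differentiableOn one_ne_zero x hx).differentiableAt (hO.mem_nhds hx)).hasFDerivAt
  set h : E → E := fun x => r x - x with hh
  set h' : E → E →L[ℝ] E := fun x => fderiv ℝ r x - ContinuousLinearMap.id ℝ E with hh'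
  have hhd : ∀ x ∈ O, HasFDerivAt h (h' x) x := fun x hx => (hrd x hx).sub (hasFDerivAt_id x)
  have hcont : ContinuousOn h' O :=
    (hr.continuousOn_fderiv_of_isOpen hO le_rfl).sub continuousOn_const
  have hcontB : ContinuousOn h' B := hcont.mono hBO
  obtain ⟨C, hC⟩ := hBc.exists_bound_of_continuousOn hcontB
  have hC0 : 0 ≤ C := (norm_nonneg _).trans (hC 0 (by simp [hB]))
  set L : NNReal := ⟨C, hC0⟩ with hL
  have hLip : LipschitzOnWith L h B := by
    apply Convex.lipschitzOnWith_of_nnnorm_fderiv_le (𝕜 := ℝ)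
    · intro x hx
      exact (hhd x (hBO hx)).differentiableAt
    · intro x hx
      rw [(hhd x (hBO hx)).fderiv]
      exact_mod_cast hC x hx
    · exact convex_closedBall 0 1
  have hS : ∀ x, ‖x‖ = 1 → h x = 0 := fun x hx => by simp [hh, hrS x hx]
  set H : E → E := fun x => if ‖x‖ ≤ 1 then h x else 0 with hH
  have hHL : LipschitzWith L H := lipschitz_ext_zero hLip hS
  have hHout : ∀ x, 1 ≤ ‖x‖ → H x = 0 := by
    intro x hx
    rcases eq_or_lt_of_le hx with h1 | h1
    · simp [hH, ← h1, hS x h1.symm]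
    · simp [hH, not_le.mpr h1]
  set g : ℝ → E → E := fun t x => x + t • H x with hg
  have happ : ∀ t : ℝ, ApproximatesLinearOn (g t)
      ((ContinuousLinearEquiv.refl ℝ E : E ≃L[ℝ] E) : E →L[ℝ] E) univ (‖t‖₊ * L) := by
    intro t x _ y _
    have : g t x - g t y - ((ContinuousLinearEquiv.refl ℝ E : E ≃L[ℝ] E) : E →L[ℝ] E) (x - y)
        = t • (H x - H y) := by
      simp [hg, smul_sub]
      abel
    rw [this, norm_smul]
    have h2 := hHL.dist_le_mul x y
    rw [dist_eq_norm, dist_eq_norm] at h2
    calc ‖t‖ * ‖H x - H y‖ ≤ ‖t‖ * (L * ‖x - y‖) := by gcongr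
      _ = _ := by push_cast; ring
  set J : ℝ → E → ℝ := fun t x => (ContinuousLinearMap.id ℝ E + t • h' x).det with hJ
  -- the change of variables
  have hvol : ∀ t : ℝ, ‖t‖₊ * L < 1 →
      ∫⁻ x in ball (0:E) 1, ENNReal.ofReal |J t x| ∂μ = μ (ball (0:E) 1) := by
    intro t ht
    have hc : Subsingleton E ∨ ‖t‖₊ * L <
        ‖(((ContinuousLinearEquiv.refl ℝ E : E ≃L[ℝ] E)).symm : E →L[ℝ] E)‖₊⁻¹ := by
      right
      have : ‖(((ContinuousLinearEquiv.refl ℝ E : E ≃L[ℝ] E)).symm : E →L[ℝ] E)‖₊ = 1 := by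
        ext
        simpa using (ContinuousLinearMap.norm_id (𝕜 := ℝ) (E := E))
      rw [this]
      simpa using ht
    have hsurj := (happ t).surjective hc
    have hinj : Function.Injective (g t) := by
      have := (happ t).injOn hc
      exact injOn_univ.mp this
    have himg : g t '' ball (0:E) 1 = ball (0:E) 1 := by
      apply Subset.antisymm
      · rintro _ ⟨x, hx, rfl⟩
        by_contra hcon
        rw [mem_ball_zero_iff, not_lt] at hcon
        have h3 : g t (g t x) = g t x := by
          simp only [hg]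
          rw [hHout _ hcon, smul_zero, add_zero]
        have h4 := hinj h3
        rw [h4] at hcon
        rw [mem_ball_zero_iff] at hx
        linarith
      · intro y hy
        obtain ⟨x, hx⟩ := hsurj y
        refine ⟨x, ?_, hx⟩
        by_contra hcon
        rw [mem_ball_zero_iff, not_lt] at hcon
        have h3 : g t x = x := by
          simp only [hg]
          rw [hHout _ hcon, smul_zero, add_zero]
        rw [h3] at hx
        rw [hx, ← not_lt] at hcon
        exact hcon (by simpa using hy)
    have hder : ∀ x ∈ ball (0:E) 1, HasFDerivWithinAt (g t)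
        (ContinuousLinearMap.id ℝ E + t • h' x) (ball (0:E) 1) x := by
      intro x hx
      have hxO : x ∈ O := hBO (ball_subset_closedBall hx)
      have h1 : HasFDerivAt (fun y => y + t • h y) (ContinuousLinearMap.id ℝ E + t • h' x) x :=
        (hasFDerivAt_id x).add ((hhd x hxO).const_smul t)
      refine h1.hasFDerivWithinAt.congr ?_ ?_
      · intro y hy
        rw [mem_ball_zero_iff] at hy
        simp [hg, hH, hy.le]
      · rw [mem_ball_zero_iff] at hx
        simp [hg, hH, hx.le]
    have := lintegral_abs_det_fderiv_eq_addHaar_image μ (measurableSet_ball) hder hinj.injOn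
    rw [himg] at this
    exact this
  -- joint continuity of J and positivity for small t
  have hJc : ContinuousOn (fun p : ℝ × E => J p.1 p.2) (univ ×ˢ B) := by
    apply ContinuousLinearMap.continuous_det.comp_continuousOn
    apply ContinuousOn.add continuousOn_const
    apply ContinuousOn.smul continuous_fst.continuousOn
    exact hcontB.comp continuous_snd.continuousOn (fun p hp => hp.2)
  obtain ⟨ε, hε, hpos⟩ : ∃ ε > 0, ∀ t : ℝ, |t| < ε → ∀ x ∈ B, 0 < J t x := by
    have hJc' : Continuous (fun p : ℝ × B => J p.1 p.2) := by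
      have : (fun p : ℝ × B => J p.1 p.2) = (fun p : ℝ × E => J p.1 p.2) ∘
        (fun p : ℝ × B => (p.1, (p.2 : E))) := rfl
      rw [this]
      apply hJc.comp_continuous (by fun_prop)
      intro p
      exact ⟨mem_univ _, p.2.2⟩
    have hopen : IsOpen {p : ℝ × B | 0 < J p.1 p.2} := isOpen_lt continuous_const hJc'
    have hBcs : CompactSpace B := isCompact_iff_compactSpace.mp hBc
    obtain ⟨u, v, hu, hv, h0u, hv2, huv⟩ := generalized_tube_lemma (isCompact_singleton (x := (0:ℝ)))
      (isCompact_univ (X := B)) hopen (by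
        rintro ⟨t, x⟩ ⟨ht, _⟩
        simp only [mem_singleton_iff] at ht
        simp [ht, hJ, ContinuousLinearMap.det])
    obtain ⟨ε, hε, hεu⟩ := Metric.isOpen_iff.mp hu 0 (h0u rfl)
    refine ⟨ε, hε, fun t ht x hx => ?_⟩
    have : ((t, ⟨x, hx⟩) : ℝ × B) ∈ u ×ˢ v := by
      refine ⟨hεu ?_, hv2 (mem_univ _)⟩
      simpa using ht
    exact huv this
  have hballpos : 0 < μ.real (ball (0:E) 1) := by
    rw [measureReal_def]
    exact ENNReal.toReal_pos (measure_ball_pos μ 0 one_pos).ne' measure_ball_lt_top.ne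
  have hJint : ∀ t, IntegrableOn (J t) (ball (0:E) 1) μ := by
    intro t
    have h1 : ContinuousOn (J t) B := by
      have : J t = (fun p : ℝ × E => J p.1 p.2) ∘ (fun x => (t, x)) := rfl
      rw [this]
      apply hJc.comp (by fun_prop)
      intro x hx
      exact ⟨mem_univ _, hx⟩
    exact (h1.integrableOn_compact hBc).mono_set ball_subset_closedBall
  have hVt : ∀ t : ℝ, ‖t‖₊ * L < 1 → |t| < ε → ∫ x in ball (0:E) 1, J t x ∂μ
      = μ.real (ball (0:E) 1) := by
    intro t ht1 ht2
    have h1 := hvol t ht1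
    rw [integral_eq_lintegral_of_nonneg_ae, measureReal_def, ← h1]
    · congr 1
      apply setLIntegral_congr_fun measurableSet_ball
      intro x hx
      simp only
      rw [abs_of_pos (hpos t ht2 x (ball_subset_closedBall hx))]
    · filter_upwards [self_mem_ae_restrict measurableSet_ball] with x hx
      exact (hpos t ht2 x (ball_subset_closedBall hx)).le
    · exact (hJint t).aestronglyMeasurable
  have hV1 : ∀ x ∈ ball (0:E) 1, J 1 x = 0 := by
    intro x hx
    have hxO : x ∈ O := hBO (ball_subset_closedBall hx)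
    have e1 : ContinuousLinearMap.id ℝ E + (1:ℝ) • h' x = fderiv ℝ r x := by
      simp [hh']
    simp only [hJ]
    rw [e1]
    by_contra hne
    set A := fderiv ℝ r x with hA
    have horth : ∀ v, inner ℝ (r x) (A v) = 0 := by
      have h1 : HasFDerivAt (fun y => ‖r y‖ ^ 2) (2 • (innerSL ℝ (r x)).comp A) x := by
        simpa using (hrd x hxO).norm_sq
      have h2 : HasFDerivAt (fun y => ‖r y‖ ^ 2) (0 : E →L[ℝ] ℝ) x := by
        refine (hasFDerivAt_const (1:ℝ) x).congr_of_eventuallyEq ?_
        filter_upwards [hO.mem_nhds hxO] with y hy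
        simp [hr1 y hy]
      have h3 := h1.unique h2
      intro v
      have h4 := congrArg (fun (f : E →L[ℝ] ℝ) => f v) h3
      simp at h4
      exact h4
    have hsurj : Function.Surjective A := by
      have := (LinearMap.equivOfDetNeZero (A : E →ₗ[ℝ] E) hne).surjective
      exact this
    obtain ⟨v, hv⟩ := hsurj (r x)
    have h5 := horth v
    rw [hv, real_inner_self_eq_norm_sq, hr1 x hxO] at h5
    norm_num at h5
  -- Lagrange interpolation
  set N := Module.finrank ℝ E with hN
  obtain ⟨η, hη, hηL, hηε⟩ : ∃ η : ℝ, 0 < η ∧ η * L < 1 ∧ η < ε := by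
    refine ⟨min (1 / (2 * (L + 1))) (ε / 2), by positivity, ?_, ?_⟩
    · have h1 : min (1 / (2 * ((L:ℝ) + 1))) (ε / 2) ≤ 1 / (2 * (L + 1)) := min_le_left _ _
      calc min (1 / (2 * ((L:ℝ) + 1))) (ε / 2) * L ≤ 1 / (2 * (L + 1)) * L := by gcongr
        _ < 1 := by
          rw [div_mul_eq_mul_div, one_mul, div_lt_one (by positivity)]
          have : (0:ℝ) ≤ L := L.2
          linarith
    · have h1 : min (1 / (2 * ((L:ℝ) + 1))) (ε / 2) ≤ ε / 2 := min_le_right _ _
      linarith
  set v : ℕ → ℝ := fun i => η * i / (N + 1) with hv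
  have hvinj : Set.InjOn v (Finset.range (N + 1) : Set ℕ) := by
    intro i _ j _ hij
    simp only [hv] at hij
    have hN1 : ((N:ℝ) + 1) ≠ 0 := by positivity
    field_simp at hij
    exact_mod_cast hij
  have hvsmall : ∀ i ∈ Finset.range (N + 1), |v i| ≤ η := by
    intro i hi
    have hi' : (i:ℝ) ≤ N + 1 := by
      have := Finset.mem_range.mp hi
      exact_mod_cast this.le
    have h0 : 0 ≤ v i := by simp only [hv]; positivity
    rw [abs_of_nonneg h0]
    simp only [hv]
    rw [div_le_iff₀ (by positivity)]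
    gcongr
  set c : ℕ → ℝ := fun i => (Lagrange.basis (Finset.range (N + 1)) v i).eval 1 with hc
  have hsum1 : ∑ i ∈ Finset.range (N + 1), c i = 1 := by
    have := Lagrange.sum_basis hvinj (by simp)
    have h2 := congrArg (Polynomial.eval 1) this
    rw [Polynomial.eval_finset_sum] at h2
    simpa using h2
  have hJ1 : ∀ x, J 1 x = ∑ i ∈ Finset.range (N + 1), J (v i) x * c i := by
    intro x
    obtain ⟨p, hp, hpe⟩ := det_poly (h' x)
    have hdeg : p.degree < (Finset.range (N + 1)).card := by
      rw [Finset.card_range]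
      refine lt_of_le_of_lt Polynomial.degree_le_natDegree ?_
      exact_mod_cast Nat.lt_succ_of_le hp
    have h1 := Lagrange.eq_interpolate hvinj hdeg
    have h2 := congrArg (Polynomial.eval 1) h1
    rw [Lagrange.interpolate_apply, Polynomial.eval_finset_sum] at h2
    simp only [hJ]
    rw [hpe 1, h2]
    apply Finset.sum_congr rfl
    intro i _
    rw [Polynomial.eval_mul, Polynomial.eval_C, hpe (v i)]
  have hfin : ∫ x in ball (0:E) 1, J 1 x ∂μ = μ.real (ball (0:E) 1) := by
    simp_rw [hJ1]
    rw [integral_finset_sum]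
    · have : ∀ i ∈ Finset.range (N + 1), ∫ x in ball (0:E) 1, J (v i) x * c i ∂μ
          = μ.real (ball (0:E) 1) * c i := by
        intro i hi
        rw [integral_mul_const, hVt (v i) ?_ ?_]
        · have h1 := hvsmall i hi
          rw [← NNReal.coe_lt_coe]
          push_cast
          rw [Real.norm_eq_abs]
          calc |v i| * (L:ℝ) ≤ η * L := by gcongr
            _ < 1 := hηL
        · exact (hvsmall i hi).trans_lt hηε
      rw [Finset.sum_congr rfl this, ← Finset.mul_sum, hsum1, mul_one]
    · intro i _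
      exact (hJint (v i)).mul_const _
  have hzero : ∫ x in ball (0:E) 1, J 1 x ∂μ = 0 := by
    rw [setIntegral_congr_fun measurableSet_ball hV1]
    simp
  rw [hzero] at hfin
  linarith

/-- A `C^1` map which is nonzero on the closed unit ball cannot point outwards on the sphere. -/
theorem exists_zero_of_contDiff {q : E → E} (hq : ContDiff ℝ 1 q)
    (hS : ∀ x : E, ‖x‖ = 1 → 0 < inner ℝ x (q x)) : ∃ x ∈ closedBall (0:E) 1, q x = 0 := by
  by_contra hne
  push Not at hne
  set disc : E → ℝ := fun x => (inner ℝ x (q x)) ^ 2 + ‖q x‖ ^ 2 * (1 - ‖x‖ ^ 2) with hdisc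
  set τ : E → ℝ := fun x => (-(inner ℝ x (q x)) + Real.sqrt (disc x)) / ‖q x‖ ^ 2 with hτ
  set O : Set E := {x | q x ≠ 0 ∧ 0 < disc x} with hO
  have hqc : Continuous q := hq.continuous
  have hdc : Continuous disc := by
    simp only [hdisc]
    fun_prop
  have hOo : IsOpen O := by
    have h1 : IsOpen {x | q x ≠ 0} := isOpen_ne_fun hqc continuous_const
    have h2 : IsOpen {x | 0 < disc x} := isOpen_lt continuous_const hdc
    exact h1.inter h2
  have hBO : closedBall (0:E) 1 ⊆ O := by
    intro x hx
    refine ⟨hne x hx, ?_⟩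
    rw [mem_closedBall_zero_iff] at hx
    have hqpos : 0 < ‖q x‖ := norm_pos_iff.mpr (hne x (by simpa using hx))
    rcases eq_or_lt_of_le hx with h1 | h1
    · have := hS x h1
      simp only [hdisc, h1]
      have h2 : 0 < (inner ℝ x (q x)) ^ 2 := by positivity
      simpa using h2
    · have h2 : 0 < 1 - ‖x‖ ^ 2 := by nlinarith [norm_nonneg x]
      simp only [hdisc]
      have h3 : 0 < ‖q x‖ ^ 2 * (1 - ‖x‖ ^ 2) := by positivity
      have h4 : 0 ≤ (inner ℝ x (q x)) ^ 2 := sq_nonneg _
      linarith
  have hdisc_cd : ContDiff ℝ 1 disc := by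
    simp only [hdisc]
    have h1 : ContDiff ℝ 1 (fun x : E => inner ℝ x (q x)) := contDiff_id.inner ℝ hq
    have h2 : ContDiff ℝ 1 (fun x : E => ‖q x‖ ^ 2) := hq.norm_sq ℝ
    have h3 : ContDiff ℝ 1 (fun x : E => ‖x‖ ^ 2) := contDiff_norm_sq ℝ
    exact (h1.pow 2).add (h2.mul (contDiff_const.sub h3))
  apply no_retraction (r := fun x => x + τ x • q x) hOo hBO
  · have hτcd : ContDiffOn ℝ 1 τ O := by
      simp only [hτ]
      have h1 : ContDiff ℝ 1 (fun x : E => inner ℝ x (q x)) := contDiff_id.inner ℝ hq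
      have h2 : ContDiff ℝ 1 (fun x : E => ‖q x‖ ^ 2) := hq.norm_sq ℝ
      apply ContDiffOn.div
      · apply ContDiffOn.add h1.neg.contDiffOn
        exact hdisc_cd.contDiffOn.sqrt (fun x hx => hx.2.ne')
      · exact h2.contDiffOn
      · intro x hx
        have := norm_pos_iff.mpr hx.1
        positivity
    exact contDiffOn_id.add (hτcd.smul hq.contDiffOn)
  · intro x hx
    have hqpos : 0 < ‖q x‖ := norm_pos_iff.mpr hx.1
    have h1 : ‖x + τ x • q x‖ ^ 2 = 1 := by
      rw [norm_add_sq_real, norm_smul, inner_smul_right, mul_pow, Real.norm_eq_abs, sq_abs]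
      have h2 : τ x * ‖q x‖ ^ 2 = -(inner ℝ x (q x)) + Real.sqrt (disc x) := by
        simp only [hτ]
        field_simp
      have h3 : Real.sqrt (disc x) ^ 2 = disc x := Real.sq_sqrt hx.2.le
      have h4 : (τ x * ‖q x‖ ^ 2 + inner ℝ x (q x)) ^ 2 = disc x := by
        have h41 : -(inner ℝ x (q x)) + Real.sqrt (disc x) + inner ℝ x (q x)
            = Real.sqrt (disc x) := by ring
        rw [h2, h41, h3]
      have h5 : disc x = (inner ℝ x (q x)) ^ 2 + ‖q x‖ ^ 2 * (1 - ‖x‖ ^ 2) := rfl
      have h6 : ‖q x‖ ^ 2 * (‖x‖ ^ 2 + 2 * (τ x * inner ℝ x (q x)) + τ x ^ 2 * ‖q x‖ ^ 2 - 1) = 0 := by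
        nlinarith [h4, h5]
      have h7 : ‖q x‖ ^ 2 ≠ 0 := by positivity
      have := (mul_eq_zero.mp h6).resolve_left h7
      linarith
    have h2 := norm_nonneg (x + τ x • q x)
    nlinarith
  · intro x hx
    have h1 := hS x hx
    have : τ x = 0 := by
      simp only [hτ, hdisc, hx]
      simp [Real.sqrt_sq h1.le]
    simp [this]

/-- A continuous map on the closed unit ball pointing outwards on the sphere has a zero. -/
theorem exists_zero_of_continuous {q : E → E} (hq : Continuous q)
    (hS : ∀ x : E, ‖x‖ = 1 → 0 < inner ℝ x (q x)) : ∃ x ∈ closedBall (0:E) 1, q x = 0 := by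
  rcases subsingleton_or_nontrivial E with hE | hE
  · exact ⟨0, by simp, Subsingleton.elim _ _⟩
  by_contra hne
  push Not at hne
  have hBc : IsCompact (closedBall (0:E) 1) := isCompact_closedBall 0 1
  obtain ⟨x0, hx0, hmin⟩ := hBc.exists_isMinOn ⟨0, by simp⟩ (f := fun x => ‖q x‖)
    hq.norm.continuousOn
  have hSc : IsCompact (sphere (0:E) 1) := isCompact_sphere 0 1
  obtain ⟨x1, hx1, hmin1⟩ := hSc.exists_isMinOn (NormedSpace.sphere_nonempty.mpr zero_le_one)
    (f := fun x => inner ℝ x (q x)) (by fun_prop)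
  set δ := ‖q x0‖ with hδ
  have hδ0 : 0 < δ := norm_pos_iff.mpr (hne x0 hx0)
  set m := inner ℝ x1 (q x1) with hm
  have hm0 : 0 < m := hS x1 (by simpa using hx1)
  set ε := min δ m with hε
  have hε0 : 0 < ε := lt_min hδ0 hm0
  obtain ⟨g, hg, hgq, -⟩ := hq.exists_contDiff_approx 1 (ε := fun _ => ε) continuous_const
    (fun _ => hε0)
  obtain ⟨x, hx, hgx⟩ := exists_zero_of_contDiff (q := g) hg (by
    intro x hx
    have h1 : inner ℝ x (g x) = inner ℝ x (q x) + inner ℝ x (g x - q x) := by
      rw [inner_sub_right]; ring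
    have h2 : |inner ℝ x (g x - q x)| ≤ ‖x‖ * ‖g x - q x‖ := abs_real_inner_le_norm _ _
    have h3 : ‖g x - q x‖ < ε := by
      have := hgq x
      rwa [dist_eq_norm] at this
    rw [hx, one_mul] at h2
    have h4 : m ≤ inner ℝ x (q x) := hmin1 (by simpa using hx)
    have h5 : ε ≤ m := min_le_right _ _
    have h6 := neg_abs_le (inner ℝ x (g x - q x))
    rw [h1]
    linarith)
  have h1 := hgq x
  rw [hgx, dist_zero_left] at h1
  have h2 : δ ≤ ‖q x‖ := hmin hx
  have h3 : ε ≤ δ := min_le_left _ _
  linarith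

/-- **Brouwer fixed point theorem** for the closed unit ball of a finite-dimensional real
inner product space. -/
theorem brouwer {f : E → E} (hf : ContinuousOn f (closedBall 0 1))
    (hm : MapsTo f (closedBall 0 1) (closedBall 0 1)) :
    ∃ x ∈ closedBall (0:E) 1, f x = x := by
  by_contra hne
  push Not at hne
  have : TietzeExtension E := TietzeExtension.of_tvs ℝ
  obtain ⟨F, hF⟩ := ContinuousMap.exists_restrict_eq (isClosed_closedBall (x := (0:E)) (ε := 1))
    (⟨_, hf.domRestrict⟩ : C(closedBall (0:E) 1, E))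
  have hFf : ∀ x ∈ closedBall (0:E) 1, F x = f x := by
    intro x hx
    have := congrArg (fun (k : C(closedBall (0:E) 1, E)) => k ⟨x, hx⟩) hF
    simpa using this
  obtain ⟨x, hx, hx0⟩ := exists_zero_of_continuous (q := fun x => x - F x) (by fun_prop) (by
    intro x hx
    have hxB : x ∈ closedBall (0:E) 1 := by simp [hx]
    rw [inner_sub_right, real_inner_self_eq_norm_sq, hx, hFf x hxB]
    have h1 : ‖f x‖ ≤ 1 := by simpa using hm hxB
    have h2 : inner ℝ x (f x) ≤ ‖x‖ * ‖f x‖ := real_inner_le_norm _ _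
    rw [hx, one_mul] at h2
    rcases lt_or_eq_of_le (h2.trans h1) with h3 | h3
    · linarith
    · exfalso
      have h4 : ‖f x‖ = 1 := by linarith
      have h5 : inner ℝ x (f x) = ‖x‖ * ‖f x‖ := by rw [h3, hx, h4]; norm_num
      rw [inner_eq_norm_mul_iff_real, hx, h4, one_smul, one_smul] at h5
      exact hne x hxB h5.symm)
  rw [sub_eq_zero, hFf x hx] at hx0
  exact hne x hx hx0.symm

/-- **Invariance of dimension**, strong form: there is no injective continuous map from the closed
unit ball of a finite-dimensional real inner product space to a normed space of smaller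
dimension. -/
theorem not_injOn_closedBall {F : Type*} [NormedAddCommGroup F] [NormedSpace ℝ F]
    [FiniteDimensional ℝ F] (hdim : Module.finrank ℝ F < Module.finrank ℝ E) {f : E → F}
    (hf : ContinuousOn f (closedBall 0 1)) (hinj : InjOn f (closedBall 0 1)) : False := by
  have : TietzeExtension E := TietzeExtension.of_tvs ℝ
  have : TietzeExtension F := TietzeExtension.of_tvs ℝ
  have hBc : IsCompact (closedBall (0:E) 1) := isCompact_closedBall 0 1
  have hBcs : CompactSpace (closedBall (0:E) 1) := isCompact_iff_compactSpace.mp hBc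
  set f' : closedBall (0:E) 1 → F := fun x => f x with hf'
  have hf'c : Continuous f' := hf.domRestrict
  have hf'i : Function.Injective f' := fun x y hxy => Subtype.ext (hinj x.2 y.2 hxy)
  have hemb : IsClosedEmbedding f' := hf'c.isClosedEmbedding hf'i
  obtain ⟨G, hG⟩ := ContinuousMap.exists_extension' hemb
    (⟨Subtype.val, continuous_subtype_val⟩ : C(closedBall (0:E) 1, E))
  obtain ⟨F', hF'⟩ := ContinuousMap.exists_restrict_eq
    (isClosed_closedBall (x := (0:E)) (ε := 1)) (⟨f', hf'c⟩ : C(closedBall (0:E) 1, F))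
  have hF'f : ∀ x ∈ closedBall (0:E) 1, F' x = f x := by
    intro x hx
    have := congrArg (fun (k : C(closedBall (0:E) 1, F)) => k ⟨x, hx⟩) hF'
    simpa using this
  have hGf : ∀ x ∈ closedBall (0:E) 1, G (f x) = x := by
    intro x hx
    have := congrFun hG ⟨x, hx⟩
    simpa using this
  obtain ⟨P, hP, hPG, -⟩ := G.continuous.exists_contDiff_approx 1 (ε := fun _ => 1/4)
    continuous_const (fun _ => by norm_num)
  have hdense := ContDiff.dense_compl_range_of_finrank_lt_finrank (f := P) hP hdim
  obtain ⟨c, hcP, hc⟩ := hdense.exists_dist_lt 0 (ε := 1/4) (by norm_num)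
  rw [dist_zero_left] at hc
  obtain ⟨x, hx, hx0⟩ := exists_zero_of_continuous (q := fun x => P (F' x) - c) (by
      have := hP.continuous
      fun_prop) (by
    intro x hx
    have hxB : x ∈ closedBall (0:E) 1 := by simp [hx]
    rw [hF'f x hxB]
    have h1 : ‖P (f x) - x‖ < 1/4 := by
      have := hPG (f x)
      rwa [hGf x hxB, dist_eq_norm] at this
    have h2 : P (f x) - c = x + ((P (f x) - x) - c) := by abel
    rw [h2, inner_add_right, real_inner_self_eq_norm_sq, hx]
    have h3 : |inner ℝ x ((P (f x) - x) - c)| ≤ ‖x‖ * ‖(P (f x) - x) - c‖ :=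
      abs_real_inner_le_norm _ _
    have h4 : ‖(P (f x) - x) - c‖ ≤ ‖P (f x) - x‖ + ‖c‖ := norm_sub_le _ _
    rw [hx, one_mul] at h3
    have h5 := neg_abs_le (inner ℝ x ((P (f x) - x) - c))
    linarith)
  rw [hF'f x hx, sub_eq_zero] at hx0
  exact hcP ⟨f x, hx0⟩

end

end Pool.Agent.Lib.Topology38
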